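import Mathlib
import Pool.Agent.V11117.FR66P

/-!
MP_d93d44_co, Q1: yes. There is a graph on 66 vertices with proper fractional revival on `{a, b}`
with `6 + 2√5` in `C⁺` and its conjugate `6 - 2√5` in `C⁻`.
-/

namespace Pool.Agent.Results.MP_d93d44_co.ClassesNotClosed

open Polynomial in
lemma aeval_minpoly (s : ℝ) (hs : s ^ 2 = 5) (hirr : Irrational s) :
    Polynomial.aeval (6 - 2 * s) (minpoly ℚ (6 + 2 * s)) = 0 := by
  have hmon : (X ^ 2 - C 12 * X + C 16 : ℚ[X]).Monic := by
    have : (X ^ 2 - C 12 * X + C 16 : ℚ[X]) = X ^ 2 + (- C 12 * X + C 16) := by ring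
    rw [this]
    apply monic_X_pow_add
    have : (-C 12 * X + C 16 : ℚ[X]) = C (-12) * X + C 16 := by simp
    rw [this]
    exact lt_of_le_of_lt degree_linear_le (by norm_num)
  have hdeg : (X ^ 2 - C 12 * X + C 16 : ℚ[X]).natDegree = 2 := by
    compute_degree!
  have hval : ∀ t : ℝ, t ^ 2 = 5 →
      Polynomial.aeval (6 + 2 * t) (X ^ 2 - C 12 * X + C 16 : ℚ[X]) = 0 := by
    intro t ht
    simp only [map_add, map_sub, map_mul, map_pow, aeval_X, aeval_C]
    simp only [eq_ratCast]
    push_cast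
    linear_combination 4 * ht
  have hirrp : Irreducible (X ^ 2 - C 12 * X + C 16 : ℚ[X]) := by
    rw [hmon.irreducible_iff_roots_eq_zero_of_degree_le_three (by rw [hdeg]) (by rw [hdeg]; norm_num)]
    apply Multiset.eq_zero_of_forall_notMem
    intro r hr
    rw [mem_roots hmon.ne_zero, IsRoot.def] at hr
    simp only [eval_add, eval_sub, eval_mul, eval_pow, eval_X, eval_C] at hr
    have h1 : ((r : ℝ) - 6) ^ 2 = 20 := by
      have : (r - 6) ^ 2 = (20 : ℚ) := by linarith
      exact_mod_cast this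
    have h2 : (((r : ℝ) - 6) / 2) ^ 2 = s ^ 2 := by rw [hs]; linarith
    rcases sq_eq_sq_iff_eq_or_eq_neg.1 h2 with h3 | h3
    · apply hirr
      refine ⟨(r - 6) / 2, ?_⟩
      push_cast
      exact h3
    · apply hirr
      refine ⟨-((r - 6) / 2), ?_⟩
      push_cast
      linarith
  have hmin : minpoly ℚ (6 + 2 * s) = (X ^ 2 - C 12 * X + C 16 : ℚ[X]) :=
    (minpoly.eq_of_irreducible_of_monic hirrp (hval s hs) hmon).symm
  rw [hmin]
  have := hval (-s) (by rw [neg_sq, hs])
  rwa [show 6 + 2 * -s = 6 - 2 * s by ring] at this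

open Pool.Agent.V11117 Pool.Agent.V11117.FRDef Pool.Agent.V11117.FR66

/-- Proper fractional revival on `{a, b}` at time `t`. -/
def ProperRevivalAt {V : Type} [Fintype V] [DecidableEq V] (X : SimpleGraph V)
    [DecidableRel X.Adj] (a b : V) (t : ℝ) : Prop :=
  a ≠ b ∧ (∀ c, c ≠ a → c ≠ b → walk X t a c = 0 ∧ walk X t b c = 0) ∧ walk X t a b ≠ 0

/-- The entry `(E_θ)_{a,b}`. -/
noncomputable def entry {V : Type} [Fintype V] [DecidableEq V] (X : SimpleGraph V)
    [DecidableRel X.Adj] (θ : ℝ) (a b : V) : ℝ :=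
  proj X θ (EuclideanSpace.single b 1) a

/-- The class `C⁺`. -/
def plus {V : Type} [Fintype V] [DecidableEq V] (X : SimpleGraph V) [DecidableRel X.Adj]
    (a b : V) : Set ℝ := {θ : ℝ | 0 < entry X θ a b}

/-- The class `C⁻`. -/
def minus {V : Type} [Fintype V] [DecidableEq V] (X : SimpleGraph V) [DecidableRel X.Adj]
    (a b : V) : Set ℝ := {θ : ℝ | entry X θ a b < 0}

/-- Closure under algebraic conjugates (only the real ones are required here). -/
def ConjClosed (S : Set ℝ) : Prop :=
  ∀ θ ∈ S, ∀ θ' : ℝ, Polynomial.aeval θ' (minpoly ℚ θ) = 0 → θ' ∈ S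

lemma irr5 : Irrational (Real.sqrt 5) := by
  have : Irrational (Real.sqrt (5 : ℕ)) := Nat.Prime.irrational_sqrt (by norm_num)
  exact_mod_cast this

lemma entry_plus : 0 < entry FR66.X (6 + 2 * Real.sqrt 5) va vb := by
  unfold entry
  rw [← val_g, proj_b_g]
  simp only [PiLp.smul_apply, smul_eq_mul, Function.comp_apply]
  have hw : w0 g (cell va) = (20 - 12 * g) / 32 := rfl
  rw [hw]
  have h2 := s5_hi
  have h3 := s5_pos
  have h4 : 0 < (20 - 12 * g) / 32 := by
    unfold g
    linarith
  positivity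

lemma entry_minus : entry FR66.X (6 - 2 * Real.sqrt 5) va vb < 0 := by
  unfold entry
  rw [← val_h, proj_b_h]
  simp only [PiLp.smul_apply, smul_eq_mul, Function.comp_apply]
  have hw : w0 h (cell va) = (20 - 12 * h) / 32 := rfl
  rw [hw]
  have h3 := s5_pos
  have h4 : 0 < (20 - 12 * h) / 32 := by
    unfold h
    linarith
  have h5 : -1 / Real.sqrt 5 < 0 := div_neg_of_neg_of_pos (by norm_num) h3
  exact mul_neg_of_neg_of_pos h5 h4

/-- The answer to Q1 is yes: there is a graph with proper fractional revival on `{a, b}` for which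
neither `C⁺` nor `C⁻` is closed under algebraic conjugates. -/
theorem result : ∃ (V : Type) (_ : Fintype V) (_ : DecidableEq V) (X : SimpleGraph V)
    (_ : DecidableRel X.Adj) (a b : V), (∃ t : ℝ, 0 < t ∧ ProperRevivalAt X a b t) ∧
      ¬ ConjClosed (plus X a b) ∧ ¬ ConjClosed (minus X a b) := by
  have h5 : ((Real.sqrt 5 : ℝ) : ℂ) ≠ 0 := by exact_mod_cast s5_pos.ne'
  have hab : va ≠ vb := by decide
  refine ⟨Vt, inferInstance, inferInstance, FR66.X, inferInstance, va, vb, ⟨τ, τ_pos, hab, ?_, ?_⟩,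
    ?_, ?_⟩
  · have hsymm : ∀ x y, walk FR66.X τ x y = walk FR66.X τ y x := by
      intro x y
      have h1 : (walk FR66.X τ).transpose = walk FR66.X τ := by
        unfold walk
        rw [← Matrix.exp_transpose, Matrix.transpose_smul, SimpleGraph.transpose_adjMatrix]
      exact congrFun (congrFun h1 y) x
    intro c hca hcb
    constructor
    · rw [hsymm]
      have h1 := congrFun revival c
      rw [Matrix.mulVec_single_one] at h1
      have h2 : walk FR66.X τ c va = (U τ).col va c := rfl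
      rw [h2, h1]
      simp [hca, hcb]
    · rw [hsymm]
      have h1 := congrFun revival_b c
      rw [Matrix.mulVec_single_one] at h1
      have h2 : walk FR66.X τ c vb = (U τ).col vb c := rfl
      rw [h2, h1]
      simp [hca, hcb]
  · have h1 := congrFun revival_b va
    rw [Matrix.mulVec_single_one] at h1
    have h2 : walk FR66.X τ va vb = (U τ).col vb va := rfl
    have h3 : (U τ).col vb va = β := by
      rw [h1]
      simp [hab, β]
    rw [h2, h3]
    exact β_ne
  · intro hcl
    have h1 := hcl (6 + 2 * Real.sqrt 5) entry_plus (6 - 2 * Real.sqrt 5)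
      (aeval_minpoly _ sq5 irr5)
    exact absurd (lt_trans h1 entry_minus) (lt_irrefl _)
  · intro hcl
    have h0 := aeval_minpoly (-Real.sqrt 5) (by rw [neg_sq, sq5]) irr5.neg
    rw [show 6 + 2 * -Real.sqrt 5 = 6 - 2 * Real.sqrt 5 by ring,
      show 6 - 2 * -Real.sqrt 5 = 6 + 2 * Real.sqrt 5 by ring] at h0
    have h1 := hcl (6 - 2 * Real.sqrt 5) entry_minus (6 + 2 * Real.sqrt 5) h0
    exact absurd (lt_trans h1 entry_plus) (lt_irrefl _)

end Pool.Agent.Results.MP_d93d44_co.ClassesNotClosed
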